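import Pool.Agent.Helper22.G4.Cone

set_option autoImplicit false

/-!
# GRAPH4, piece A1: adding vertices to a cone with a complete list of inequalities
-/

namespace Pool.Agent.Helper94.G4

open Submodule Pool.Agent.Helper22.G4

variable {V : Type*}

lemma lin_large (a b K : ℝ) (ha : 0 < a) : ∀ᶠ M : ℝ in Filter.atTop, K < M * a - b := by
  filter_upwards [Filter.eventually_gt_atTop ((K + b) / a)] with M hM
  rw [div_lt_iff₀ ha] at hM
  linarith

/-- Adding vertices, general form. New vertices `z ∈ B`, placed at `M • m z - n z` with `M`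
large, where `m z` is a sum of old vertices; `Vis z` are the inequalities violated by it. -/
theorem add_general [DecidableEq V] {A B : Finset V} (hAB : Disjoint A B) {c : V → E5}
    {Φ : Set (E5 →ₗ[ℝ] ℝ)} (h : Complete c A Φ) (Vis : V → Set (E5 →ₗ[ℝ] ℝ)) (e : V → Finset V)
    (n : V → E5) (hVis : ∀ z ∈ B, Vis z ⊆ Φ) (heA : ∀ z ∈ B, e z ⊆ A)
    (hne : ∀ z ∈ B, (e z).Nonempty)
    (hd : ∀ z ∈ B, ∀ y ∈ B, z ≠ y → Disjoint (Vis z) (Vis y))
    (h1 : ∀ z ∈ B, ∀ φ ∈ Vis z, φ (∑ v ∈ e z, c v) = 0 ∧ 0 < φ (n z))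
    (h2 : ∀ z ∈ B, ∀ φ ∈ Φ, φ ∉ Vis z → 0 < φ (∑ v ∈ e z, c v) ∨
      (φ (∑ v ∈ e z, c v) = 0 ∧ φ (n z) < 0 ∧ ∀ y ∈ B, φ ∉ Vis y)) :
    Realizable (A ∪ B) ({Z | ∃ φ ∈ Φ, (∀ z ∈ B, φ ∉ Vis z) ∧ Z = zs c A φ} ∪
      {Z | ∃ z ∈ B, ∃ φ ∈ Vis z, ∃ ψ ∈ Φ, ψ ∉ Vis z ∧ Z = (zs c A φ ∩ zs c A ψ) ∪ {z}}) := by
  classical
  obtain ⟨hfin, ⟨hp, hpos⟩, hspan, hnn, hcompl⟩ := h
  obtain ⟨m, hm⟩ : ∃ m : V → E5, ∀ z, m z = ∑ v ∈ e z, c v := ⟨_, fun _ => rfl⟩
  simp only [← hm] at h1 h2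
  -- the largeness conditions
  have E1 : ∀ᶠ M : ℝ in Filter.atTop, ∀ z ∈ B, ∀ φ ∈ Φ, φ ∉ Vis z →
      0 < M * φ (m z) - φ (n z) := by
    rw [Filter.eventually_all_finset]
    intro z hz
    rw [Filter.eventually_all_finite hfin]
    intro φ hφ
    by_cases hv : φ ∈ Vis z
    · exact Filter.Eventually.of_forall fun M h => absurd hv h
    · rcases h2 z hz φ hφ hv with h0 | ⟨h0, h1', _⟩
      · filter_upwards [lin_large (φ (m z)) (φ (n z)) 0 h0] with M hM _ using hM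
      · refine Filter.Eventually.of_forall fun M _ => ?_
        rw [h0]
        linarith
  have E2 : ∀ᶠ M : ℝ in Filter.atTop, ∀ z ∈ B, ∀ y ∈ B, ∀ φ ∈ Φ, ∀ ψ ∈ Φ, z ≠ y →
      φ ∈ Vis z → ψ ∈ Vis y →
      ψ (n y) * φ (n z) < (M * ψ (m z) - ψ (n z)) * (M * φ (m y) - φ (n y)) := by
    rw [Filter.eventually_all_finset]
    intro z hz
    rw [Filter.eventually_all_finset]
    intro y hy
    rw [Filter.eventually_all_finite hfin]
    intro φ hφ
    rw [Filter.eventually_all_finite hfin]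
    intro ψ hψ
    by_cases hc : z ≠ y ∧ φ ∈ Vis z ∧ ψ ∈ Vis y
    · obtain ⟨hzy, hφz, hψy⟩ := hc
      have hψz : ψ ∉ Vis z := fun hh => Set.disjoint_left.1 (hd z hz y hy hzy) hh hψy
      have hφy : φ ∉ Vis y := fun hh => Set.disjoint_left.1 (hd z hz y hy hzy) hφz hh
      have ha : 0 < ψ (m z) := by
        rcases h2 z hz ψ hψ hψz with h0 | ⟨_, _, h0⟩
        · exact h0
        · exact absurd hψy (h0 y hy)
      have hb : 0 < φ (m y) := by
        rcases h2 y hy φ hφ hφy with h0 | ⟨_, _, h0⟩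
        · exact h0
        · exact absurd hφz (h0 z hz)
      have hk : 0 < ψ (n y) * φ (n z) := mul_pos (h1 y hy ψ hψy).2 (h1 z hz φ hφz).2
      filter_upwards [lin_large (ψ (m z)) (ψ (n z)) 1 ha,
        lin_large (φ (m y)) (φ (n y)) (ψ (n y) * φ (n z)) hb] with M hM1 hM2 _ _ _
      nlinarith
    · refine Filter.Eventually.of_forall fun M h3 h4 h5 => absurd ⟨h3, h4, h5⟩ hc
  have E3 : ∀ᶠ M : ℝ in Filter.atTop, ∀ z ∈ B, 0 < M * hp (m z) - hp (n z) := by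
    rw [Filter.eventually_all_finset]
    intro z hz
    apply lin_large
    rw [hm, map_sum]
    exact Finset.sum_pos (fun v hv => hpos v (heA z hz hv)) (hne z hz)
  obtain ⟨M, hM1, hM2, hM3⟩ := (E1.and (E2.and E3)).exists
  -- the new vectors
  obtain ⟨q, hq⟩ : ∃ q : V → E5, ∀ z, q z = M • m z - n z := ⟨_, fun _ => rfl⟩
  have hqv : ∀ (f : E5 →ₗ[ℝ] ℝ) (z : V), f (q z) = M * f (m z) - f (n z) := by
    intro f z
    rw [hq, map_sub, map_smul, smul_eq_mul]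
  have F1 : ∀ z ∈ B, ∀ φ ∈ Vis z, φ (q z) < 0 := by
    intro z hz φ hφ
    rw [hqv, (h1 z hz φ hφ).1]
    linarith [(h1 z hz φ hφ).2]
  have F1' : ∀ z ∈ B, ∀ φ ∈ Vis z, -φ (q z) = φ (n z) := by
    intro z hz φ hφ
    rw [hqv, (h1 z hz φ hφ).1]
    ring
  have F2 : ∀ z ∈ B, ∀ ψ ∈ Φ, ψ ∉ Vis z → 0 < ψ (q z) := by
    intro z hz ψ hψ hv
    rw [hqv]
    exact hM1 z hz ψ hψ hv
  have F3 : ∀ z ∈ B, ∀ φ ∈ Vis z, ∀ ψ ∈ Φ, ψ ∉ Vis z → 0 < ψ (q z) / (-φ (q z)) := by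
    intro z hz φ hφ ψ hψ hv
    exact div_pos (F2 z hz ψ hψ hv) (by linarith [F1 z hz φ hφ])
  obtain ⟨chi, hchi⟩ : ∃ chi : V → (E5 →ₗ[ℝ] ℝ) → (E5 →ₗ[ℝ] ℝ) → (E5 →ₗ[ℝ] ℝ),
      ∀ z φ ψ, chi z φ ψ = ψ + (ψ (q z) / (-φ (q z))) • φ := ⟨_, fun _ _ _ => rfl⟩
  have hchiv : ∀ z φ ψ (x : E5), chi z φ ψ x = ψ x + (ψ (q z) / (-φ (q z))) * φ x := by
    intro z φ ψ x
    rw [hchi]
    rfl
  have F0 : ∀ z ∈ B, ∀ φ ∈ Vis z, ∀ ψ : E5 →ₗ[ℝ] ℝ, chi z φ ψ (q z) = 0 := by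
    intro z hz φ hφ ψ
    have h3 := (F1 z hz φ hφ).ne
    rw [hchiv, div_neg, neg_mul, div_mul_cancel₀ _ h3]
    ring
  have F4 : ∀ z ∈ B, ∀ φ ∈ Vis z, ∀ ψ ∈ Φ, ψ ∉ Vis z → ∀ y ∈ B, y ≠ z →
      0 < chi z φ ψ (q y) := by
    intro z hz φ hφ ψ hψ hv y hy hyz
    have hφy : φ ∉ Vis y := fun hh => Set.disjoint_left.1 (hd y hy z hz hyz) hh hφ
    have h3 := F3 z hz φ hφ ψ hψ hv
    have h4 := F2 y hy φ (hVis z hz hφ) hφy
    rw [hchiv]
    by_cases hψy : ψ ∈ Vis y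
    · have h5 := hM2 z hz y hy φ (hVis z hz hφ) ψ hψ (Ne.symm hyz) hφ hψy
      rw [← hqv, ← hqv] at h5
      have h6 : ψ (q y) = - ψ (n y) := by
        have := F1' y hy ψ hψy
        linarith
      have h7 : 0 < φ (n z) := (h1 z hz φ hφ).2
      rw [F1' z hz φ hφ, h6]
      have h8 : ψ (q z) / φ (n z) * φ (q y) = (ψ (q z) * φ (q y)) / φ (n z) := by ring
      rw [h8]
      have h9 : ψ (n y) < (ψ (q z) * φ (q y)) / φ (n z) := by
        rw [lt_div_iff₀ h7]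
        exact h5
      linarith
    · have h5 := F2 y hy ψ hψ hψy
      have h6 := mul_pos h3 h4
      linarith
  obtain ⟨c', hc'⟩ : ∃ c' : V → E5, ∀ v, c' v = if v ∈ B then q v else c v := ⟨_, fun _ => rfl⟩
  have hcA : ∀ v ∈ A, c' v = c v := by
    intro v hv
    rw [hc', if_neg (Finset.disjoint_left.1 hAB hv)]
  have hcB : ∀ v ∈ B, c' v = q v := by
    intro v hv
    rw [hc', if_pos hv]
  -- the zero sets
  have Z1 : ∀ φ ∈ Φ, (∀ z ∈ B, φ ∉ Vis z) → zs c' (A ∪ B) φ = zs c A φ := by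
    intro φ hφ hv
    ext v
    simp only [zs, Set.mem_ofPred_eq, Finset.mem_union]
    constructor
    · rintro ⟨hvA | hvB, h0⟩
      · rw [hcA v hvA] at h0
        exact ⟨hvA, h0⟩
      · rw [hcB v hvB] at h0
        have := F2 v hvB φ hφ (hv v hvB)
        linarith
    · rintro ⟨hvA, h0⟩
      rw [← hcA v hvA] at h0
      exact ⟨Or.inl hvA, h0⟩
  have N2 : ∀ z ∈ B, ∀ φ ∈ Vis z, ∀ ψ ∈ Φ, ψ ∉ Vis z → ∀ v ∈ A, 0 ≤ chi z φ ψ (c v) := by
    intro z hz φ hφ ψ hψ hv v hvA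
    rw [hchiv]
    have h3 := F3 z hz φ hφ ψ hψ hv
    have h4 := hnn φ (hVis z hz hφ) v hvA
    have h5 := hnn ψ hψ v hvA
    have h6 := mul_nonneg h3.le h4
    linarith
  have Z2 : ∀ z ∈ B, ∀ φ ∈ Vis z, ∀ ψ ∈ Φ, ψ ∉ Vis z →
      zs c' (A ∪ B) (chi z φ ψ) = (zs c A φ ∩ zs c A ψ) ∪ {z} := by
    intro z hz φ hφ ψ hψ hv
    have h3 := F3 z hz φ hφ ψ hψ hv
    ext v
    simp only [zs, Set.mem_ofPred_eq, Finset.mem_union, Set.mem_union, Set.mem_inter_iff,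
      Set.mem_singleton_iff]
    constructor
    · rintro ⟨hvA | hvB, h0⟩
      · left
        rw [hcA v hvA, hchiv] at h0
        have h4 := hnn φ (hVis z hz hφ) v hvA
        have h5 := hnn ψ hψ v hvA
        have h6 := mul_nonneg h3.le h4
        have h7 : ψ (c v) = 0 := by linarith
        have h8 : ψ (q z) / (-φ (q z)) * φ (c v) = 0 := by linarith
        rcases mul_eq_zero.1 h8 with h9 | h9
        · exact absurd h9 h3.ne'
        · exact ⟨⟨hvA, h9⟩, ⟨hvA, h7⟩⟩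
      · right
        by_contra hvz
        rw [hcB v hvB] at h0
        have := F4 z hz φ hφ ψ hψ hv v hvB hvz
        linarith
    · rintro (⟨⟨hvA, h4⟩, ⟨_, h5⟩⟩ | hvz)
      · refine ⟨Or.inl hvA, ?_⟩
        rw [hcA v hvA, hchiv, h4, h5]
        ring
      · subst hvz
        refine ⟨Or.inr hz, ?_⟩
        rw [hcB v hz]
        exact F0 v hz φ hφ ψ
  -- the new functionals
  refine ⟨c', {φ | φ ∈ Φ ∧ ∀ z ∈ B, φ ∉ Vis z} ∪
    {f | ∃ z ∈ B, ∃ φ ∈ Vis z, ∃ ψ ∈ Φ, ψ ∉ Vis z ∧ f = chi z φ ψ}, ⟨?_, ?_, ?_, ?_, ?_⟩, ?_⟩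
  · -- finite
    refine Set.Finite.union (hfin.subset fun φ hφ => hφ.1) ?_
    refine Set.Finite.subset ((((Finset.finite_toSet B).prod (hfin.prod hfin))).image
      (fun t => chi t.1 t.2.1 t.2.2)) ?_
    rintro f ⟨z, hz, φ, hφ, ψ, hψ, _, rfl⟩
    exact ⟨(z, φ, ψ), ⟨hz, hVis z hz hφ, hψ⟩, rfl⟩
  · -- pos
    refine ⟨hp, fun w hw => ?_⟩
    rcases Finset.mem_union.1 hw with hwA | hwB
    · rw [hcA w hwA]
      exact hpos w hwA
    · rw [hcB w hwB, hqv]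
      exact hM3 w hwB
  · -- span
    rw [eq_top_iff, ← hspan]
    apply Submodule.span_mono
    rintro _ ⟨v, hv, rfl⟩
    exact ⟨v, Finset.mem_coe.2 (Finset.mem_union_left _ (Finset.mem_coe.1 hv)),
      hcA v (Finset.mem_coe.1 hv)⟩
  · -- nonneg
    rintro f (⟨hf, hfv⟩ | ⟨z, hz, φ, hφ, ψ, hψ, hv, rfl⟩) v hv'
    · rcases Finset.mem_union.1 hv' with hvA | hvB
      · rw [hcA v hvA]
        exact hnn f hf v hvA
      · rw [hcB v hvB]
        exact (F2 v hvB f hf (hfv v hvB)).le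
    · rcases Finset.mem_union.1 hv' with hvA | hvB
      · rw [hcA v hvA]
        exact N2 z hz φ hφ ψ hψ hv v hvA
      · rw [hcB v hvB]
        by_cases hvz : v = z
        · subst hvz
          exact (F0 v hvB φ hφ ψ).ge
        · exact (F4 z hz φ hφ ψ hψ hv v hvB hvz).le
  · -- completeness
    intro x hx
    have hsumA : ∀ b : V → ℝ, ∀ d : V → ℝ, (∀ v ∈ A, d v = b v) →
        ∑ v ∈ A, d v • c' v = ∑ v ∈ A, b v • c v := by
      intro b d hd'
      refine Finset.sum_congr rfl fun v hv => ?_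
      rw [hd' v hv, hcA v hv]
    by_cases hall : ∀ φ ∈ Φ, 0 ≤ φ x
    · obtain ⟨b, hb, hxb⟩ := hcompl x hall
      refine ⟨fun v => if v ∈ A then b v else 0, ?_, ?_⟩
      · intro v _
        show 0 ≤ if v ∈ A then b v else 0
        split_ifs with hvA
        · exact hb v hvA
        · exact le_refl _
      · rw [Finset.sum_union hAB, hsumA b _ (fun v hv => if_pos hv), ← hxb]
        rw [Finset.sum_eq_zero, add_zero]
        intro v hv
        show (if v ∈ A then b v else 0) • c' v = 0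
        rw [if_neg (Finset.disjoint_right.1 hAB hv), zero_smul]
    · push Not at hall
      obtain ⟨φ0, hφ0, hneg⟩ := hall
      have hex : ∃ z ∈ B, φ0 ∈ Vis z := by
        by_contra hcon
        push Not at hcon
        have := hx φ0 (Or.inl ⟨hφ0, hcon⟩)
        linarith
      obtain ⟨z, hz, hφz⟩ := hex
      obtain ⟨φ1, hφ1, hmax⟩ := Set.exists_max_image (Vis z) (fun φ => φ x / φ (q z))
        (hfin.subset (hVis z hz)) ⟨φ0, hφz⟩
      set lam : ℝ := φ1 x / φ1 (q z) with hlam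
      have hlam0 : 0 < lam :=
        lt_of_lt_of_le (div_pos_of_neg_of_neg hneg (F1 z hz φ0 hφz)) (hmax φ0 hφz)
      have hx' : ∀ φ ∈ Φ, 0 ≤ φ (x - lam • q z) := by
        intro φ hφ
        rw [map_sub, map_smul, smul_eq_mul]
        by_cases hv : φ ∈ Vis z
        · have h3 := hmax φ hv
          have h4 := F1 z hz φ hv
          have h5 : φ x / φ (q z) ≤ lam := h3
          rw [div_le_iff_of_neg h4] at h5
          linarith
        · have h3 := hx (chi z φ1 φ) (Or.inr ⟨z, hz, φ1, hφ1, φ, hφ, hv, rfl⟩)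
          rw [hchiv] at h3
          have h4 := F1 z hz φ1 hφ1
          have h5 : φ x - lam * φ (q z) = φ x + φ (q z) / -φ1 (q z) * φ1 x := by
            rw [hlam]
            field_simp
            ring
          rw [h5]
          exact h3
      obtain ⟨b, hb, hxb⟩ := hcompl _ hx'
      have hzA : z ∉ A := Finset.disjoint_right.1 hAB hz
      refine ⟨fun v => if v ∈ A then b v else if v = z then lam else 0, ?_, ?_⟩
      · intro v _
        show 0 ≤ if v ∈ A then b v else if v = z then lam else 0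
        split_ifs with hvA
        · exact hb v hvA
        · exact hlam0.le
        · exact le_refl _
      · rw [Finset.sum_union hAB, hsumA b _ (fun v hv => if_pos hv), ← hxb]
        rw [Finset.sum_eq_single_of_mem z hz]
        · show x = x - lam • q z + (if z ∈ A then b z else if z = z then lam else 0) • c' z
          rw [if_neg hzA, if_pos rfl, hcB z hz]
          abel
        · intro v hv hvz
          show (if v ∈ A then b v else if v = z then lam else 0) • c' v = 0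
          rw [if_neg (Finset.disjoint_right.1 hAB hv), if_neg hvz, zero_smul]
  · -- zero sets
    rw [Set.image_union]
    congr 1
    · ext Z
      constructor
      · rintro ⟨φ, ⟨hφ, hv⟩, rfl⟩
        exact ⟨φ, hφ, hv, Z1 φ hφ hv⟩
      · rintro ⟨φ, hφ, hv, rfl⟩
        exact ⟨φ, ⟨hφ, hv⟩, Z1 φ hφ hv⟩
    · ext Z
      constructor
      · rintro ⟨_, ⟨z, hz, φ, hφ, ψ, hψ, hv, rfl⟩, rfl⟩
        exact ⟨z, hz, φ, hφ, ψ, hψ, hv, Z2 z hz φ hφ ψ hψ hv⟩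
      · rintro ⟨z, hz, φ, hφ, ψ, hψ, hv, rfl⟩
        exact ⟨chi z φ ψ, ⟨z, hz, φ, hφ, ψ, hψ, hv, rfl⟩, Z2 z hz φ hφ ψ hψ hv⟩

end Pool.Agent.Helper94.G4
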