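import Pool.Agent.Helper22.G4.St.C0

set_option autoImplicit false
set_option linter.unusedSimpArgs false
set_option linter.unusedTactic false
set_option linter.unreachableTactic false

/-!
# GRAPH4, piece C7: diagonals of flats lie in two facets only
-/

namespace Pool.Agent.Helper94.G4

open Pool.Agent.Helper22.G4

/-- page membership -/
def pm (f : Fc) (a : ℕ) : Prop := a = f.1.1 ∨ a = f.1.2.1 ∨ a = f.1.2.2

theorem slope_or_full {I : NF} {f : Fc} (hf : f ∈ I.data.fcodes) :
    (f.2.1 = (0, I.N) ∧ f.2.2.1 = (true, true)) ∨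
      ∃ s, f.2.1 = (s, s) ∧ f.2.2.1 = (decide (s = 0), decide (s = I.N)) := by
  rcases NF.mem_fcodes.1 hf with rfl | ⟨a', s, h1, h2, h3, rfl⟩ | ⟨e, he, hfe⟩
  · exact Or.inl ⟨rfl, rfl⟩
  · exact Or.inr ⟨_, rfl, rfl⟩
  · simp only [OpD.facets, List.mem_cons, List.not_mem_nil, or_false] at hfe
    rcases hfe with rfl | rfl | rfl | rfl | rfl | rfl | rfl | rfl | rfl | rfl | rfl | rfl | rfl |
      rfl | rfl | rfl | rfl | rfl | rfl | rfl | rfl | rfl | rfl | rfl | rfl | rfl | rfl <;>
    first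
      | exact Or.inl ⟨rfl, rfl⟩
      | exact Or.inr ⟨_, rfl, rfl⟩

theorem full_cases {I : NF} (hI : I.OK) {f : Fc} (hf : f ∈ I.data.fcodes)
    (hfull : f.2.1 = (0, I.N)) : f = Fc.Q I.N 0 1 ∨ ∃ e ∈ I.opds,
      f = Fc.Q I.N e.pd (e.nxt I.M) ∨ f = Fc.GX I.N e.pb e.g0 ∨ f = Fc.GY I.N e.pa e.g0 ∨
      f = Fc.T0 I.M I.N e.g0 ∨ f = Fc.GX I.N e.pb e.g1 ∨ f = Fc.GY I.N e.pc e.g1 ∨
      f = Fc.T0 I.M I.N e.g1 ∨ f = Fc.GX I.N e.pc e.g2 ∨ f = Fc.GY I.N e.pd e.g2 ∨
      f = Fc.T0 I.M I.N e.g2 := by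
  obtain ⟨_, _, hN, _⟩ := NF.size hI
  rcases NF.mem_fcodes.1 hf with rfl | ⟨a', s, h1, h2, h3, rfl⟩ | ⟨e, he, hfe⟩
  · exact Or.inl rfl
  · exfalso
    simp only [Fc.F, Prod.mk.injEq] at hfull
    omega
  · right
    refine ⟨e, he, ?_⟩
    simp only [OpD.facets, List.mem_cons, List.not_mem_nil, or_false] at hfe
    rcases hfe with hfe | hfe | hfe | hfe | hfe | hfe | hfe | hfe | hfe | hfe | hfe | hfe | hfe |
      hfe | hfe | hfe | hfe | hfe | hfe | hfe | hfe | hfe | hfe | hfe | hfe | hfe | hfe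
    all_goals first
      | (simp only [hfe, true_or, or_true]; done)
      | (exfalso
         rw [hfe] at hfull
         simp only [Fc.G, Prod.mk.injEq] at hfull
         omega)

/-- the facets of an operation contain its gadget vertices -/
theorem pq_cases {I : NF} {f : Fc} (hf : f ∈ I.data.fcodes) {d : OpD} (hd : d ∈ I.opds) {g : ℕ}
    (hg : g = d.g0 ∨ g = d.g1 ∨ g = d.g2) (h : f.2.2.2.1 = g + 1 ∨ f.2.2.2.2 = g + 1) :
    f ∈ OpD.facets I.M I.N d := by
  simp only [OpD.g0, OpD.g1, OpD.g2] at hg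
  rcases NF.mem_fcodes.1 hf with rfl | ⟨a', s, h1, h2, h3, rfl⟩ | ⟨e, he, hfe⟩
  · exfalso
    simp only [Fc.Q] at h
    omega
  · exfalso
    simp only [Fc.F] at h
    omega
  · have key : e.n = d.n := by
      simp only [OpD.facets, List.mem_cons, List.not_mem_nil, or_false] at hfe
      rcases hfe with hfe | hfe | hfe | hfe | hfe | hfe | hfe | hfe | hfe | hfe | hfe | hfe | hfe |
        hfe | hfe | hfe | hfe | hfe | hfe | hfe | hfe | hfe | hfe | hfe | hfe | hfe | hfe
      all_goals
        rw [hfe] at h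
        simp only [Fc.Q, Fc.GX, Fc.GY, Fc.T0, Fc.G, OpD.g0, OpD.g1, OpD.g2] at h
        first
          | omega
          | (simp at h; omega)
    rw [← NF.opds_inj he hd key]
    exact hfe

theorem full_zero {I : NF} (hI : I.OK) {f : Fc} (hf : f ∈ I.data.fcodes)
    (hfull : f.2.1 = (0, I.N)) (hp : pm f 0) :
    f = Fc.Q I.N 0 1 ∨ f = Fc.Q I.N I.M 0 := by
  rcases full_cases hI hf hfull with rfl | ⟨e, he, hfe⟩
  · exact Or.inl rfl
  · right
    unfold pm at hp
    rcases hfe with hfe | hfe | hfe | hfe | hfe | hfe | hfe | hfe | hfe | hfe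
    · by_cases hM : 4 * e.n + 4 = I.M
      · rw [hfe]
        simp only [OpD.nxt, OpD.pd, hM, if_true]
      · exfalso
        rw [hfe] at hp
        simp only [Fc.Q, OpD.nxt, OpD.pd, if_neg hM] at hp
        omega
    all_goals
      exfalso
      rw [hfe] at hp
      simp only [Fc.GX, Fc.GY, Fc.T0, OpD.pa, OpD.pb, OpD.pc, OpD.pd] at hp
      omega

theorem full_pa {I : NF} (hI : I.OK) {f : Fc} (hf : f ∈ I.data.fcodes)
    (hfull : f.2.1 = (0, I.N)) {d : OpD} (hd : d ∈ I.opds) (hp : pm f d.pa) :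
    f = Fc.Q I.N (d.pa - 1) d.pa ∨ f = Fc.GY I.N d.pa d.g0 := by
  have hdo := NF.opd_ok hI hd
  unfold pm at hp
  rcases full_cases hI hf hfull with rfl | ⟨e, he, hfe⟩
  · left
    simp only [Fc.Q, OpD.pa] at hp
    have h0 : d.n = 0 := by omega
    simp only [OpD.pa, h0]
  · have heo := NF.opd_ok hI he
    rcases hfe with hfe | hfe | hfe | hfe | hfe | hfe | hfe | hfe | hfe | hfe
    · left
      rw [hfe] at hp ⊢
      simp only [Fc.Q, OpD.nxt, OpD.pa, OpD.pd] at hp
      by_cases hM : 4 * e.n + 4 = I.M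
      · exfalso
        simp only [if_pos hM] at hp
        omega
      · simp only [if_neg hM] at hp
        simp only [OpD.nxt, OpD.pa, OpD.pd, if_neg hM]
        congr 1 <;> omega
    · exfalso
      rw [hfe] at hp
      simp only [Fc.GX, Fc.GY, Fc.T0, OpD.pa, OpD.pb, OpD.pc, OpD.pd] at hp
      omega
    · right
      rw [hfe] at hp ⊢
      simp only [Fc.GY, OpD.pa] at hp
      rw [NF.opds_inj he hd (by omega)]
    all_goals
      exfalso
      rw [hfe] at hp
      simp only [Fc.GX, Fc.GY, Fc.T0, OpD.pa, OpD.pb, OpD.pc, OpD.pd] at hp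
      omega

theorem full_pb {I : NF} (hI : I.OK) {f : Fc} (hf : f ∈ I.data.fcodes)
    (hfull : f.2.1 = (0, I.N)) {d : OpD} (hd : d ∈ I.opds) (hp : pm f d.pb) :
    f = Fc.GX I.N d.pb d.g0 ∨ f = Fc.GX I.N d.pb d.g1 := by
  have hdo := NF.opd_ok hI hd
  unfold pm at hp
  rcases full_cases hI hf hfull with rfl | ⟨e, he, hfe⟩
  · exfalso
    simp only [Fc.Q, OpD.pb] at hp
    omega
  · have heo := NF.opd_ok hI he
    rcases hfe with hfe | hfe | hfe | hfe | hfe | hfe | hfe | hfe | hfe | hfe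
    · exfalso
      rw [hfe] at hp
      simp only [Fc.Q, OpD.nxt, OpD.pb, OpD.pd] at hp
      split_ifs at hp <;> (try simp only [or_false] at hp) <;> omega
    · left
      rw [hfe] at hp ⊢
      simp only [Fc.GX, OpD.pb] at hp
      rw [NF.opds_inj he hd (by omega)]
    · exfalso
      rw [hfe] at hp
      simp only [Fc.GX, Fc.GY, Fc.T0, OpD.pa, OpD.pb, OpD.pc, OpD.pd] at hp
      omega
    · exfalso
      rw [hfe] at hp
      simp only [Fc.GX, Fc.GY, Fc.T0, OpD.pa, OpD.pb, OpD.pc, OpD.pd] at hp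
      omega
    · right
      rw [hfe] at hp ⊢
      simp only [Fc.GX, OpD.pb] at hp
      rw [NF.opds_inj he hd (by omega)]
    all_goals
      exfalso
      rw [hfe] at hp
      simp only [Fc.GX, Fc.GY, Fc.T0, OpD.pa, OpD.pb, OpD.pc, OpD.pd] at hp
      omega

theorem full_pc {I : NF} (hI : I.OK) {f : Fc} (hf : f ∈ I.data.fcodes)
    (hfull : f.2.1 = (0, I.N)) {d : OpD} (hd : d ∈ I.opds) (hp : pm f d.pc) :
    f = Fc.GY I.N d.pc d.g1 ∨ f = Fc.GX I.N d.pc d.g2 := by
  have hdo := NF.opd_ok hI hd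
  unfold pm at hp
  rcases full_cases hI hf hfull with rfl | ⟨e, he, hfe⟩
  · exfalso
    simp only [Fc.Q, OpD.pc] at hp
    omega
  · have heo := NF.opd_ok hI he
    rcases hfe with hfe | hfe | hfe | hfe | hfe | hfe | hfe | hfe | hfe | hfe
    · exfalso
      rw [hfe] at hp
      simp only [Fc.Q, OpD.nxt, OpD.pc, OpD.pd] at hp
      split_ifs at hp <;> (try simp only [or_false] at hp) <;> omega
    · exfalso
      rw [hfe] at hp
      simp only [Fc.GX, Fc.GY, Fc.T0, OpD.pa, OpD.pb, OpD.pc, OpD.pd] at hp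
      omega
    · exfalso
      rw [hfe] at hp
      simp only [Fc.GX, Fc.GY, Fc.T0, OpD.pa, OpD.pb, OpD.pc, OpD.pd] at hp
      omega
    · exfalso
      rw [hfe] at hp
      simp only [Fc.GX, Fc.GY, Fc.T0, OpD.pa, OpD.pb, OpD.pc, OpD.pd] at hp
      omega
    · exfalso
      rw [hfe] at hp
      simp only [Fc.GX, Fc.GY, Fc.T0, OpD.pa, OpD.pb, OpD.pc, OpD.pd] at hp
      omega
    · left
      rw [hfe] at hp ⊢
      simp only [Fc.GY, OpD.pc] at hp
      rw [NF.opds_inj he hd (by omega)]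
    · exfalso
      rw [hfe] at hp
      simp only [Fc.GX, Fc.GY, Fc.T0, OpD.pa, OpD.pb, OpD.pc, OpD.pd] at hp
      omega
    · right
      rw [hfe] at hp ⊢
      simp only [Fc.GX, OpD.pc] at hp
      rw [NF.opds_inj he hd (by omega)]
    all_goals
      exfalso
      rw [hfe] at hp
      simp only [Fc.GX, Fc.GY, Fc.T0, OpD.pa, OpD.pb, OpD.pc, OpD.pd] at hp
      omega

theorem full_pd {I : NF} (hI : I.OK) {f : Fc} (hf : f ∈ I.data.fcodes)
    (hfull : f.2.1 = (0, I.N)) {d : OpD} (hd : d ∈ I.opds) (hp : pm f d.pd) :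
    f = Fc.GY I.N d.pd d.g2 ∨ f = Fc.Q I.N d.pd (d.nxt I.M) := by
  have hdo := NF.opd_ok hI hd
  unfold pm at hp
  rcases full_cases hI hf hfull with rfl | ⟨e, he, hfe⟩
  · exfalso
    simp only [Fc.Q, OpD.pd] at hp
    omega
  · have heo := NF.opd_ok hI he
    rcases hfe with hfe | hfe | hfe | hfe | hfe | hfe | hfe | hfe | hfe | hfe
    · right
      rw [hfe] at hp ⊢
      simp only [Fc.Q, OpD.nxt, OpD.pd] at hp
      by_cases hM : 4 * e.n + 4 = I.M
      · simp only [if_pos hM] at hp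
        rw [NF.opds_inj he hd (by omega)]
      · simp only [if_neg hM] at hp
        rw [NF.opds_inj he hd (by omega)]
    · exfalso
      rw [hfe] at hp
      simp only [Fc.GX, Fc.GY, Fc.T0, OpD.pa, OpD.pb, OpD.pc, OpD.pd] at hp
      omega
    · exfalso
      rw [hfe] at hp
      simp only [Fc.GX, Fc.GY, Fc.T0, OpD.pa, OpD.pb, OpD.pc, OpD.pd] at hp
      omega
    · exfalso
      rw [hfe] at hp
      simp only [Fc.GX, Fc.GY, Fc.T0, OpD.pa, OpD.pb, OpD.pc, OpD.pd] at hp
      omega
    · exfalso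
      rw [hfe] at hp
      simp only [Fc.GX, Fc.GY, Fc.T0, OpD.pa, OpD.pb, OpD.pc, OpD.pd] at hp
      omega
    · exfalso
      rw [hfe] at hp
      simp only [Fc.GX, Fc.GY, Fc.T0, OpD.pa, OpD.pb, OpD.pc, OpD.pd] at hp
      omega
    · exfalso
      rw [hfe] at hp
      simp only [Fc.GX, Fc.GY, Fc.T0, OpD.pa, OpD.pb, OpD.pc, OpD.pd] at hp
      omega
    · exfalso
      rw [hfe] at hp
      simp only [Fc.GX, Fc.GY, Fc.T0, OpD.pa, OpD.pb, OpD.pc, OpD.pd] at hp
      omega
    · left
      rw [hfe] at hp ⊢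
      simp only [Fc.GY, OpD.pd] at hp
      rw [NF.opds_inj he hd (by omega)]
    · exfalso
      rw [hfe] at hp
      simp only [Fc.GX, Fc.GY, Fc.T0, OpD.pa, OpD.pb, OpD.pc, OpD.pd] at hp
      omega

/-- the facets that contain page `0` -/
theorem zero_page {I : NF} {f : Fc} (hf : f ∈ I.data.fcodes) (hp : pm f 0) :
    f = Fc.Q I.N 0 1 ∨ f = Fc.Q I.N I.M 0 ∨
      ∃ a s, 1 ≤ a ∧ a + 1 ≤ I.M ∧ s ≤ I.N ∧ f = Fc.F I.N s a := by
  rcases NF.mem_fcodes.1 hf with rfl | ⟨a', s, h1, h2, h3, rfl⟩ | ⟨e, he, hfe⟩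
  · exact Or.inl rfl
  · exact Or.inr (Or.inr ⟨a', s, h1, h2, h3, rfl⟩)
  · right; left
    unfold pm at hp
    simp only [OpD.facets, List.mem_cons, List.not_mem_nil, or_false] at hfe
    rcases hfe with hfe | hfe | hfe | hfe | hfe | hfe | hfe | hfe | hfe | hfe | hfe | hfe | hfe |
      hfe | hfe | hfe | hfe | hfe | hfe | hfe | hfe | hfe | hfe | hfe | hfe | hfe | hfe
    · by_cases hM : 4 * e.n + 4 = I.M
      · rw [hfe]
        simp only [OpD.nxt, OpD.pd, hM, if_true]
      · exfalso
        rw [hfe] at hp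
        simp only [Fc.Q, OpD.nxt, OpD.pd, if_neg hM] at hp
        omega
    all_goals
      exfalso
      rw [hfe] at hp
      simp only [Fc.GX, Fc.GY, Fc.T0, Fc.G, OpD.pa, OpD.pb, OpD.pc, OpD.pd] at hp
      omega

theorem squad_diag {I : NF} (hI : I.OK) {f : Fc} (hf : f ∈ I.data.fcodes) {a s : ℕ}
    (ha : 1 ≤ a) (ha' : a ≤ I.M) (h0 : pm f 0) (hp : pm f a)
    (hs : ∀ t, f.2.1 = (t, t) → t = s) :
    f = OpD.prev I.N a s ∨ f = OpD.next I.M I.N a s := by
  obtain ⟨hM4, _, hN, _⟩ := NF.size hI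
  unfold pm at hp
  unfold OpD.prev OpD.next
  rcases zero_page hf h0 with rfl | rfl | ⟨b, t, hb1, hb2, hb3, rfl⟩
  · simp only [Fc.Q] at hp
    left
    rw [if_pos (by omega)]
  · simp only [Fc.Q] at hp
    right
    have : a = I.M := by omega
    rw [if_pos this, this]
  · have ht : t = s := hs t rfl
    subst ht
    simp only [Fc.F] at hp
    rcases hp with hp | hp | hp
    · omega
    · right
      rw [if_neg (by omega), hp]
    · left
      rw [if_neg (by omega), hp]
      simp

/-! ### vertices and slopes -/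

lemma pm_of_u {f : Fc} {a i j : ℕ} (h : Fc.mem f (Vx.u a i j) = true) : pm f a :=
  ((Fc.mem_u f a i j).1 h).1

theorem nuu {I : NF} {f : Fc} (hf : f ∈ I.data.fcodes) {a b i j k l : ℕ}
    (h1 : Fc.mem f (Vx.u a i j) = true) (h2 : Fc.mem f (Vx.u b k l) = true) (hjk : j < k) :
    f.2.1 = (0, I.N) := by
  rcases slope_or_full hf with h | ⟨s, h, _⟩
  · exact h.1
  · exfalso
    rw [Fc.mem_u, h] at h1 h2
    omega

theorem nb2 {I : NF} {f : Fc} (hf : f ∈ I.data.fcodes) {a i j : ℕ}
    (h1 : Fc.mem f Vx.b2 = true) (h2 : Fc.mem f (Vx.u a i j) = true) (hi : 0 < i) :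
    f.2.1 = (0, I.N) := by
  rcases slope_or_full hf with h | ⟨s, h, h'⟩
  · exact h.1
  · exfalso
    rw [Fc.mem_u, h] at h2
    rw [Fc.mem_b2, h'] at h1
    simp only [decide_eq_true_eq] at h1
    simp only at h2
    omega

theorem nb1 {I : NF} {f : Fc} (hf : f ∈ I.data.fcodes) {a i j : ℕ}
    (h1 : Fc.mem f Vx.b1 = true) (h2 : Fc.mem f (Vx.u a i j) = true) (hj : j < I.N) :
    f.2.1 = (0, I.N) := by
  rcases slope_or_full hf with h | ⟨s, h, h'⟩
  · exact h.1
  · exfalso
    rw [Fc.mem_u, h] at h2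
    rw [Fc.mem_b1, h'] at h1
    simp only [decide_eq_true_eq] at h1
    simp only at h2
    omega

/-! ### diagonals of short cyclic lists -/

section lists

variable {α : Type} {a b v1 v2 v3 v4 v5 v6 : α}

lemma diag4 {P : α → Prop} {G : Prop} (ha : a ∈ [v1, v2, v3, v4]) (hb : b ∈ [v1, v2, v3, v4])
    (hab : a ≠ b) (h1 : (a, b) ∉ cycPairs [v1, v2, v3, v4])
    (h2 : (b, a) ∉ cycPairs [v1, v2, v3, v4]) (h13 : P v1 → P v3 → G) (h24 : P v2 → P v4 → G)
    (pa : P a) (pb : P b) : G := by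
  simp only [List.mem_cons, List.not_mem_nil, or_false] at ha hb
  rcases ha with rfl | rfl | rfl | rfl <;> rcases hb with rfl | rfl | rfl | rfl <;>
    first
      | exact absurd rfl hab
      | exact h13 pa pb
      | exact h13 pb pa
      | exact h24 pa pb
      | exact h24 pb pa
      | (exfalso; simp [cycPairs] at h1 h2)

lemma diag5 {P : α → Prop} {G : Prop} (ha : a ∈ [v1, v2, v3, v4, v5])
    (hb : b ∈ [v1, v2, v3, v4, v5])
    (hab : a ≠ b) (h1 : (a, b) ∉ cycPairs [v1, v2, v3, v4, v5])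
    (h2 : (b, a) ∉ cycPairs [v1, v2, v3, v4, v5]) (h13 : P v1 → P v3 → G)
    (h14 : P v1 → P v4 → G) (h24 : P v2 → P v4 → G) (h25 : P v2 → P v5 → G)
    (h35 : P v3 → P v5 → G)
    (pa : P a) (pb : P b) : G := by
  simp only [List.mem_cons, List.not_mem_nil, or_false] at ha hb
  rcases ha with rfl | rfl | rfl | rfl | rfl <;> rcases hb with rfl | rfl | rfl | rfl | rfl <;>
    first
      | exact absurd rfl hab
      | exact h13 pa pb
      | exact h13 pb pa
      | exact h14 pa pb
      | exact h14 pb pa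
      | exact h24 pa pb
      | exact h24 pb pa
      | exact h25 pa pb
      | exact h25 pb pa
      | exact h35 pa pb
      | exact h35 pb pa
      | (exfalso; simp [cycPairs] at h1 h2)

lemma diag6 {P : α → Prop} {G : Prop} (ha : a ∈ [v1, v2, v3, v4, v5, v6])
    (hb : b ∈ [v1, v2, v3, v4, v5, v6])
    (hab : a ≠ b) (h1 : (a, b) ∉ cycPairs [v1, v2, v3, v4, v5, v6])
    (h2 : (b, a) ∉ cycPairs [v1, v2, v3, v4, v5, v6]) (h13 : P v1 → P v3 → G)
    (h14 : P v1 → P v4 → G) (h15 : P v1 → P v5 → G) (h24 : P v2 → P v4 → G)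
    (h25 : P v2 → P v5 → G) (h26 : P v2 → P v6 → G) (h35 : P v3 → P v5 → G)
    (h36 : P v3 → P v6 → G) (h46 : P v4 → P v6 → G)
    (pa : P a) (pb : P b) : G := by
  simp only [List.mem_cons, List.not_mem_nil, or_false] at ha hb
  rcases ha with rfl | rfl | rfl | rfl | rfl | rfl <;>
    rcases hb with rfl | rfl | rfl | rfl | rfl | rfl <;>
    first
      | exact absurd rfl hab
      | exact h13 pa pb
      | exact h13 pb pa
      | exact h14 pa pb
      | exact h14 pb pa
      | exact h15 pa pb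
      | exact h15 pb pa
      | exact h24 pa pb
      | exact h24 pb pa
      | exact h25 pa pb
      | exact h25 pb pa
      | exact h26 pa pb
      | exact h26 pb pa
      | exact h35 pa pb
      | exact h35 pb pa
      | exact h36 pa pb
      | exact h36 pb pa
      | exact h46 pa pb
      | exact h46 pb pa
      | (exfalso; simp [cycPairs] at h1 h2)

lemma mem_cyc_succ {l : List α} {k : ℕ} (h : k + 1 < l.length) :
    (l[k], l[k + 1]) ∈ cycPairs l := by
  unfold cycPairs
  rw [List.mem_iff_getElem]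
  refine ⟨k, ?_, ?_⟩
  · simp only [List.length_zip, List.length_append, List.length_tail, List.length_take]
    omega
  · rw [List.getElem_zip, List.getElem_append_left (by simp; omega), List.getElem_tail]

lemma mem_cyc_last {l : List α} (h : 0 < l.length) :
    (l[l.length - 1], l[0]) ∈ cycPairs l := by
  unfold cycPairs
  rw [List.mem_iff_getElem]
  refine ⟨l.length - 1, ?_, ?_⟩
  · simp only [List.length_zip, List.length_append, List.length_tail, List.length_take]
    omega
  · rw [List.getElem_zip, List.getElem_append_right (by simp)]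
    simp

end lists

/-! ### the facets of the gadgets -/

theorem gq0 {I : NF} (hI : I.OK) {f : Fc} (hf : f ∈ I.data.fcodes) {d : OpD}
    (hd : d ∈ I.opds) (h : Fc.mem f (Vx.q d.g0) = true) (hp : pm f d.pb) :
    f = Fc.G I.N d.pb d.pa d.g0 (0, true) ∨
      f = Fc.G I.N d.pb d.pa d.g0 (d.y, true) ∨
      f = Fc.G I.N d.pb d.pa d.g0 (d.z, false) ∨
      f = Fc.G I.N d.pb d.pa d.g0 (d.i, true) ∨
      f = Fc.G I.N d.pb d.pa d.g0 (d.x, true) ∨
      f = Fc.G I.N d.pb d.pa d.g0 (I.N, true) := by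
  have hdo := NF.opd_ok hI hd
  rw [Fc.mem_q] at h
  have hfe := pq_cases (g := d.g0) hf hd (by simp) (by simp [h])
  unfold pm at hp
  simp only [OpD.facets, List.mem_cons, List.not_mem_nil, or_false] at hfe
  rcases hfe with hfe | hfe | hfe | hfe | hfe | hfe | hfe | hfe | hfe | hfe | hfe | hfe | hfe |
    hfe | hfe | hfe | hfe | hfe | hfe | hfe | hfe | hfe | hfe | hfe | hfe | hfe | hfe
  all_goals first
    | (simp only [hfe, true_or, or_true]; done)
    | (exfalso
       rw [hfe] at h hp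
       simp only [Fc.Q, Fc.GX, Fc.GY, Fc.T0, Fc.G, OpD.g0, OpD.g1, OpD.g2, OpD.pa, OpD.pb, OpD.pc,
         OpD.pd] at h hp
       omega)
    | (exfalso
       rw [hfe] at h hp
       simp [Fc.Q, Fc.GX, Fc.GY, Fc.T0, Fc.G, OpD.g0, OpD.g1, OpD.g2, OpD.pa, OpD.pb, OpD.pc,
         OpD.pd] at h hp
       try omega
       done)

theorem gp0 {I : NF} (hI : I.OK) {f : Fc} (hf : f ∈ I.data.fcodes) {d : OpD}
    (hd : d ∈ I.opds) (h : Fc.mem f (Vx.p d.g0) = true) (hp : pm f d.pa) :
    f = Fc.G I.N d.pb d.pa d.g0 (0, true) ∨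
      f = Fc.G I.N d.pb d.pa d.g0 (d.y, true) ∨
      f = Fc.G I.N d.pb d.pa d.g0 (d.i, true) ∨
      f = Fc.G I.N d.pb d.pa d.g0 (d.x, true) ∨
      f = Fc.G I.N d.pb d.pa d.g0 (I.N, true) := by
  have hdo := NF.opd_ok hI hd
  rw [Fc.mem_p] at h
  have hfe := pq_cases (g := d.g0) hf hd (by simp) (by simp [h])
  unfold pm at hp
  simp only [OpD.facets, List.mem_cons, List.not_mem_nil, or_false] at hfe
  rcases hfe with hfe | hfe | hfe | hfe | hfe | hfe | hfe | hfe | hfe | hfe | hfe | hfe | hfe |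
    hfe | hfe | hfe | hfe | hfe | hfe | hfe | hfe | hfe | hfe | hfe | hfe | hfe | hfe
  all_goals first
    | (simp only [hfe, true_or, or_true]; done)
    | (exfalso
       rw [hfe] at h hp
       simp only [Fc.Q, Fc.GX, Fc.GY, Fc.T0, Fc.G, OpD.g0, OpD.g1, OpD.g2, OpD.pa, OpD.pb, OpD.pc,
         OpD.pd] at h hp
       omega)
    | (exfalso
       rw [hfe] at h hp
       simp [Fc.Q, Fc.GX, Fc.GY, Fc.T0, Fc.G, OpD.g0, OpD.g1, OpD.g2, OpD.pa, OpD.pb, OpD.pc,
         OpD.pd] at h hp
       try omega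
       done)

theorem gq1 {I : NF} (hI : I.OK) {f : Fc} (hf : f ∈ I.data.fcodes) {d : OpD}
    (hd : d ∈ I.opds) (h : Fc.mem f (Vx.q d.g1) = true) (hp : pm f d.pb) :
    f = Fc.G I.N d.pb d.pc d.g1 (0, true) ∨
      f = Fc.G I.N d.pb d.pc d.g1 (d.y, true) ∨
      f = Fc.G I.N d.pb d.pc d.g1 (d.i, true) ∨
      f = Fc.G I.N d.pb d.pc d.g1 (d.v, false) ∨
      f = Fc.G I.N d.pb d.pc d.g1 (d.x, true) ∨
      f = Fc.G I.N d.pb d.pc d.g1 (I.N, true) := by
  have hdo := NF.opd_ok hI hd
  rw [Fc.mem_q] at h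
  have hfe := pq_cases (g := d.g1) hf hd (by simp) (by simp [h])
  unfold pm at hp
  simp only [OpD.facets, List.mem_cons, List.not_mem_nil, or_false] at hfe
  rcases hfe with hfe | hfe | hfe | hfe | hfe | hfe | hfe | hfe | hfe | hfe | hfe | hfe | hfe |
    hfe | hfe | hfe | hfe | hfe | hfe | hfe | hfe | hfe | hfe | hfe | hfe | hfe | hfe
  all_goals first
    | (simp only [hfe, true_or, or_true]; done)
    | (exfalso
       rw [hfe] at h hp
       simp only [Fc.Q, Fc.GX, Fc.GY, Fc.T0, Fc.G, OpD.g0, OpD.g1, OpD.g2, OpD.pa, OpD.pb, OpD.pc,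
         OpD.pd] at h hp
       omega)
    | (exfalso
       rw [hfe] at h hp
       simp [Fc.Q, Fc.GX, Fc.GY, Fc.T0, Fc.G, OpD.g0, OpD.g1, OpD.g2, OpD.pa, OpD.pb, OpD.pc,
         OpD.pd] at h hp
       try omega
       done)

theorem gp1 {I : NF} (hI : I.OK) {f : Fc} (hf : f ∈ I.data.fcodes) {d : OpD}
    (hd : d ∈ I.opds) (h : Fc.mem f (Vx.p d.g1) = true) (hp : pm f d.pc) :
    f = Fc.G I.N d.pb d.pc d.g1 (0, true) ∨
      f = Fc.G I.N d.pb d.pc d.g1 (d.y, true) ∨
      f = Fc.G I.N d.pb d.pc d.g1 (d.i, true) ∨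
      f = Fc.G I.N d.pb d.pc d.g1 (d.x, true) ∨
      f = Fc.G I.N d.pb d.pc d.g1 (I.N, true) := by
  have hdo := NF.opd_ok hI hd
  rw [Fc.mem_p] at h
  have hfe := pq_cases (g := d.g1) hf hd (by simp) (by simp [h])
  unfold pm at hp
  simp only [OpD.facets, List.mem_cons, List.not_mem_nil, or_false] at hfe
  rcases hfe with hfe | hfe | hfe | hfe | hfe | hfe | hfe | hfe | hfe | hfe | hfe | hfe | hfe |
    hfe | hfe | hfe | hfe | hfe | hfe | hfe | hfe | hfe | hfe | hfe | hfe | hfe | hfe
  all_goals first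
    | (simp only [hfe, true_or, or_true]; done)
    | (exfalso
       rw [hfe] at h hp
       simp only [Fc.Q, Fc.GX, Fc.GY, Fc.T0, Fc.G, OpD.g0, OpD.g1, OpD.g2, OpD.pa, OpD.pb, OpD.pc,
         OpD.pd] at h hp
       omega)
    | (exfalso
       rw [hfe] at h hp
       simp [Fc.Q, Fc.GX, Fc.GY, Fc.T0, Fc.G, OpD.g0, OpD.g1, OpD.g2, OpD.pa, OpD.pb, OpD.pc,
         OpD.pd] at h hp
       try omega
       done)

theorem gq2 {I : NF} (hI : I.OK) {f : Fc} (hf : f ∈ I.data.fcodes) {d : OpD}
    (hd : d ∈ I.opds) (h : Fc.mem f (Vx.q d.g2) = true) (hp : pm f d.pc) :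
    f = Fc.G I.N d.pc d.pd d.g2 (0, true) ∨
      f = Fc.G I.N d.pc d.pd d.g2 (d.y, true) ∨
      f = Fc.G I.N d.pc d.pd d.g2 (d.w, false) ∨
      f = Fc.G I.N d.pc d.pd d.g2 (d.v, true) ∨
      f = Fc.G I.N d.pc d.pd d.g2 (I.N, true) := by
  have hdo := NF.opd_ok hI hd
  rw [Fc.mem_q] at h
  have hfe := pq_cases (g := d.g2) hf hd (by simp) (by simp [h])
  unfold pm at hp
  simp only [OpD.facets, List.mem_cons, List.not_mem_nil, or_false] at hfe
  rcases hfe with hfe | hfe | hfe | hfe | hfe | hfe | hfe | hfe | hfe | hfe | hfe | hfe | hfe |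
    hfe | hfe | hfe | hfe | hfe | hfe | hfe | hfe | hfe | hfe | hfe | hfe | hfe | hfe
  all_goals first
    | (simp only [hfe, true_or, or_true]; done)
    | (exfalso
       rw [hfe] at h hp
       simp only [Fc.Q, Fc.GX, Fc.GY, Fc.T0, Fc.G, OpD.g0, OpD.g1, OpD.g2, OpD.pa, OpD.pb, OpD.pc,
         OpD.pd] at h hp
       omega)
    | (exfalso
       rw [hfe] at h hp
       simp [Fc.Q, Fc.GX, Fc.GY, Fc.T0, Fc.G, OpD.g0, OpD.g1, OpD.g2, OpD.pa, OpD.pb, OpD.pc,
         OpD.pd] at h hp
       try omega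
       done)

theorem gp2 {I : NF} (hI : I.OK) {f : Fc} (hf : f ∈ I.data.fcodes) {d : OpD}
    (hd : d ∈ I.opds) (h : Fc.mem f (Vx.p d.g2) = true) (hp : pm f d.pd) :
    f = Fc.G I.N d.pc d.pd d.g2 (0, true) ∨
      f = Fc.G I.N d.pc d.pd d.g2 (d.y, true) ∨
      f = Fc.G I.N d.pc d.pd d.g2 (d.v, true) ∨
      f = Fc.G I.N d.pc d.pd d.g2 (I.N, true) := by
  have hdo := NF.opd_ok hI hd
  rw [Fc.mem_p] at h
  have hfe := pq_cases (g := d.g2) hf hd (by simp) (by simp [h])
  unfold pm at hp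
  simp only [OpD.facets, List.mem_cons, List.not_mem_nil, or_false] at hfe
  rcases hfe with hfe | hfe | hfe | hfe | hfe | hfe | hfe | hfe | hfe | hfe | hfe | hfe | hfe |
    hfe | hfe | hfe | hfe | hfe | hfe | hfe | hfe | hfe | hfe | hfe | hfe | hfe | hfe
  all_goals first
    | (simp only [hfe, true_or, or_true]; done)
    | (exfalso
       rw [hfe] at h hp
       simp only [Fc.Q, Fc.GX, Fc.GY, Fc.T0, Fc.G, OpD.g0, OpD.g1, OpD.g2, OpD.pa, OpD.pb, OpD.pc,
         OpD.pd] at h hp
       omega)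
    | (exfalso
       rw [hfe] at h hp
       simp [Fc.Q, Fc.GX, Fc.GY, Fc.T0, Fc.G, OpD.g0, OpD.g1, OpD.g2, OpD.pa, OpD.pb, OpD.pc,
         OpD.pd] at h hp
       try omega
       done)
/-! ### quadrangles with page `0` -/

theorem squad_ok {I : NF} (hI : I.OK) {f : Fc} (hf : f ∈ I.data.fcodes) {a i s j : ℕ}
    (ha : 1 ≤ a) (ha' : a ≤ I.M) {u v : Vx} (hu : u ∈ (OpD.squad I.M I.N a i s j).1)
    (hv : v ∈ (OpD.squad I.M I.N a i s j).1) (huv : u ≠ v)
    (h1 : (u, v) ∉ cycPairs (OpD.squad I.M I.N a i s j).1)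
    (h2 : (v, u) ∉ cycPairs (OpD.squad I.M I.N a i s j).1)
    (pu : Fc.mem f u = true) (pv : Fc.mem f v = true) :
    f = (OpD.squad I.M I.N a i s j).2.1 ∨ f = (OpD.squad I.M I.N a i s j).2.2 := by
  unfold OpD.squad at *
  refine diag4 (P := fun v => Fc.mem f v = true) hu hv huv h1 h2 ?_ ?_ pu pv
  · intro h3 h4
    refine squad_diag hI hf ha ha' (pm_of_u h3) (pm_of_u h4) ?_
    intro t ht
    have h5 := ((Fc.mem_u _ _ _ _).1 h3).2
    have h6 := ((Fc.mem_u _ _ _ _).1 h4).2
    rw [ht] at h5 h6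
    simp only at h5 h6
    omega
  · intro h3 h4
    refine squad_diag hI hf ha ha' (pm_of_u h4) (pm_of_u h3) ?_
    intro t ht
    have h5 := ((Fc.mem_u _ _ _ _).1 h3).2
    have h6 := ((Fc.mem_u _ _ _ _).1 h4).2
    rw [ht] at h5 h6
    simp only at h5 h6
    omega

/-! ### page `0` -/

lemma page0_cyc {n : ℕ} (l : List Vx) (hl : l = (List.range (n + 1)).map
    (fun i => Vx.u 0 (i + 1) (i + 2)) ++ [Vx.b1, Vx.b2, Vx.u 0 0 1]) :
    (∀ i, i < n + 1 → (Vx.u 0 i (i + 1), Vx.u 0 (i + 1) (i + 2)) ∈ cycPairs l) ∧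
    (Vx.u 0 (n + 1) (n + 2), Vx.b1) ∈ cycPairs l ∧ (Vx.b1, Vx.b2) ∈ cycPairs l ∧
    (Vx.b2, Vx.u 0 0 1) ∈ cycPairs l := by
  have hlen : l.length = n + 4 := by
    rw [hl]
    simp
  have g1 : ∀ k (hk : k < l.length), k < n + 1 → l[k] = Vx.u 0 (k + 1) (k + 2) := by
    intro k hk hk'
    subst hl
    rw [List.getElem_append_left (by simpa using hk')]
    simp
  have g2 : ∀ (hk : n + 1 < l.length), l[n + 1] = Vx.b1 := by
    intro hk
    subst hl
    rw [List.getElem_append_right (by simp)]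
    simp
  have g3 : ∀ (hk : n + 2 < l.length), l[n + 2] = Vx.b2 := by
    intro hk
    subst hl
    rw [List.getElem_append_right (by simp)]
    simp
  have g4 : ∀ (hk : n + 3 < l.length), l[n + 3] = Vx.u 0 0 1 := by
    intro hk
    subst hl
    rw [List.getElem_append_right (by simp)]
    simp
  refine ⟨?_, ?_, ?_, ?_⟩
  · intro i hi
    rcases i with _ | i
    · have h := mem_cyc_last (l := l) (by omega)
      rw [g1 0 (by omega) (by omega)] at h
      have h' : l[l.length - 1] = Vx.u 0 0 1 := by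
        rw [← g4 (by omega)]
        congr 1
        omega
      rw [h'] at h
      exact h
    · have h := mem_cyc_succ (l := l) (k := i) (by omega)
      rw [g1 i (by omega) (by omega), g1 (i + 1) (by omega) (by omega)] at h
      exact h
  · have h := mem_cyc_succ (l := l) (k := n) (by omega)
    rw [g1 n (by omega) (by omega), g2 (by omega)] at h
    exact h
  · have h := mem_cyc_succ (l := l) (k := n + 1) (by omega)
    rw [g2 (by omega), g3 (by omega)] at h
    exact h
  · have h := mem_cyc_succ (l := l) (k := n + 2) (by omega)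
    rw [g3 (by omega), g4 (by omega)] at h
    exact h

theorem page0_ok {I : NF} (hI : I.OK) {f : Fc} (hf : f ∈ I.data.fcodes) {u v : Vx}
    (hu : u ∈ I.page0.1) (hv : v ∈ I.page0.1) (huv : u ≠ v) (h1 : (u, v) ∉ cycPairs I.page0.1)
    (h2 : (v, u) ∉ cycPairs I.page0.1) (pu : Fc.mem f u = true) (pv : Fc.mem f v = true) :
    f = I.page0.2.1 ∨ f = I.page0.2.2 := by
  obtain ⟨_, _, hN, _⟩ := NF.size hI
  obtain ⟨n, hn⟩ : ∃ n, I.N = n + 2 := ⟨I.N - 2, by omega⟩
  have hl : I.page0.1 = (List.range (n + 1)).map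
      (fun i => Vx.u 0 (i + 1) (i + 2)) ++ [Vx.b1, Vx.b2, Vx.u 0 0 1] := by
    unfold NF.page0
    rw [hn]
    rfl
  obtain ⟨c1, c2, c3, c4⟩ := page0_cyc _ hl
  have hcl : ∀ w ∈ I.page0.1, w = Vx.b1 ∨ w = Vx.b2 ∨ ∃ i, i < n + 2 ∧ w = Vx.u 0 i (i + 1) := by
    intro w hw
    rw [hl] at hw
    simp only [List.mem_append, List.mem_map, List.mem_range, List.mem_cons, List.not_mem_nil,
      or_false] at hw
    rcases hw with ⟨i, hi, rfl⟩ | rfl | rfl | rfl
    · exact Or.inr (Or.inr ⟨i + 1, by omega, rfl⟩)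
    · exact Or.inl rfl
    · exact Or.inr (Or.inl rfl)
    · exact Or.inr (Or.inr ⟨0, by omega, rfl⟩)
  suffices hfull : f.2.1 = (0, I.N) ∧ pm f 0 by
    unfold NF.page0
    exact full_zero hI hf hfull.1 hfull.2
  rcases hcl u hu with rfl | rfl | ⟨i, hi, rfl⟩ <;> rcases hcl v hv with rfl | rfl | ⟨k, hk, rfl⟩
  · exact absurd rfl huv
  · exact absurd c3 h1
  · refine ⟨?_, pm_of_u pv⟩
    by_cases hkn : k = n + 1
    · subst hkn
      exact absurd c2 h2
    · exact nb1 hf pu pv (by omega)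
  · exact absurd c3 h2
  · exact absurd rfl huv
  · refine ⟨?_, pm_of_u pv⟩
    by_cases hkn : k = 0
    · subst hkn
      exact absurd c4 h1
    · exact nb2 hf pu pv (by omega)
  · refine ⟨?_, pm_of_u pu⟩
    by_cases hkn : i = n + 1
    · subst hkn
      exact absurd c2 h1
    · exact nb1 hf pv pu (by omega)
  · refine ⟨?_, pm_of_u pu⟩
    by_cases hkn : i = 0
    · subst hkn
      exact absurd c4 h2
    · exact nb2 hf pv pu (by omega)
  · refine ⟨?_, pm_of_u pu⟩
    rcases lt_trichotomy i k with hik | rfl | hik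
    · by_cases h3 : k = i + 1
      · subst h3
        exact absurd (c1 i (by omega)) h1
      · exact nuu hf pu pv (by omega)
    · exact absurd rfl huv
    · by_cases h3 : i = k + 1
      · subst h3
        exact absurd (c1 k (by omega)) h2
      · exact nuu hf pv pu (by omega)

/-! ### assembly -/

/-- Diagonals of flats lie in two facets only. -/
theorem NF.flat_diag {I : NF} (hI : I.OK) : ∀ R ∈ I.data.flats, ∀ a ∈ R.1, ∀ b ∈ R.1, a ≠ b →
    (a, b) ∉ cycPairs R.1 → (b, a) ∉ cycPairs R.1 → ∀ f ∈ I.data.fcodes, I.data.mem f a →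
    I.data.mem f b → f = R.2.1 ∨ f = R.2.2 := by
  intro R hR u hu v hv huv h1 h2 f hf pu pv
  change Fc.mem f u = true at pu
  change Fc.mem f v = true at pv
  rcases NF.mem_flats.1 hR with rfl | ⟨d, hd, hRd⟩
  · exact page0_ok hI hf hu hv huv h1 h2 pu pv
  · obtain ⟨o1, o2, o3, o4, o5, o6, o7, o8, -⟩ := NF.opd_ok hI hd
    simp only [OpD.flats, List.mem_cons, List.not_mem_nil, or_false] at hRd
    rcases hRd with rfl | rfl | rfl | rfl | rfl | rfl | rfl | rfl | rfl | rfl | rfl | rfl | rfl |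
      rfl | rfl | rfl | rfl
    · -- page a
      refine diag5 (P := fun v => Fc.mem f v = true) hu hv huv h1 h2 ?_ ?_ ?_ ?_ ?_ pu pv
      · intro h3 h4
        exact full_pa hI hf (nb1 hf h3 h4 (by omega)) hd (pm_of_u h4)
      · intro h3 h4
        exact full_pa hI hf (nb1 hf h3 h4 (by omega)) hd (pm_of_u h4)
      · intro h3 h4
        exact full_pa hI hf (nuu hf h4 h3 (by omega)) hd (pm_of_u h4)
      · intro h3 h4
        exact full_pa hI hf (nb2 hf h4 h3 (by omega)) hd (pm_of_u h3)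
      · intro h3 h4
        exact full_pa hI hf (nb2 hf h4 h3 (by omega)) hd (pm_of_u h3)
    · -- page b
      refine diag6 (P := fun v => Fc.mem f v = true) hu hv huv h1 h2 ?_ ?_ ?_ ?_ ?_ ?_ ?_ ?_ ?_
        pu pv
      · intro h3 h4
        exact full_pb hI hf (nb2 hf h3 h4 (by omega)) hd (pm_of_u h4)
      · intro h3 h4
        exact full_pb hI hf (nb2 hf h3 h4 (by omega)) hd (pm_of_u h4)
      · intro h3 h4
        exact full_pb hI hf (nb2 hf h3 h4 (by omega)) hd (pm_of_u h4)
      · intro h3 h4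
        exact full_pb hI hf (nuu hf h3 h4 (by omega)) hd (pm_of_u h4)
      · intro h3 h4
        exact full_pb hI hf (nuu hf h3 h4 (by omega)) hd (pm_of_u h4)
      · intro h3 h4
        exact full_pb hI hf (nb1 hf h4 h3 (by omega)) hd (pm_of_u h3)
      · intro h3 h4
        exact full_pb hI hf (nuu hf h3 h4 (by omega)) hd (pm_of_u h4)
      · intro h3 h4
        exact full_pb hI hf (nb1 hf h4 h3 (by omega)) hd (pm_of_u h3)
      · intro h3 h4
        exact full_pb hI hf (nb1 hf h4 h3 (by omega)) hd (pm_of_u h3)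
    · -- page c
      refine diag5 (P := fun v => Fc.mem f v = true) hu hv huv h1 h2 ?_ ?_ ?_ ?_ ?_ pu pv
      · intro h3 h4
        exact full_pc hI hf (nb1 hf h3 h4 (by omega)) hd (pm_of_u h4)
      · intro h3 h4
        exact full_pc hI hf (nb1 hf h3 h4 (by omega)) hd (pm_of_u h4)
      · intro h3 h4
        exact full_pc hI hf (nuu hf h4 h3 (by omega)) hd (pm_of_u h4)
      · intro h3 h4
        exact full_pc hI hf (nb2 hf h4 h3 (by omega)) hd (pm_of_u h3)
      · intro h3 h4
        exact full_pc hI hf (nb2 hf h4 h3 (by omega)) hd (pm_of_u h3)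
    · -- page d
      refine diag4 (P := fun v => Fc.mem f v = true) hu hv huv h1 h2 ?_ ?_ pu pv
      · intro h3 h4
        exact full_pd hI hf (nb2 hf h3 h4 (by omega)) hd (pm_of_u h4)
      · intro h3 h4
        exact full_pd hI hf (nb1 hf h4 h3 (by omega)) hd (pm_of_u h3)
    · exact squad_ok hI hf (by unfold OpD.pa; omega) (by unfold OpD.pa; omega) hu hv huv h1 h2
        pu pv
    · exact squad_ok hI hf (by unfold OpD.pb; omega) (by unfold OpD.pb; omega) hu hv huv h1 h2
        pu pv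
    · exact squad_ok hI hf (by unfold OpD.pb; omega) (by unfold OpD.pb; omega) hu hv huv h1 h2
        pu pv
    · exact squad_ok hI hf (by unfold OpD.pb; omega) (by unfold OpD.pb; omega) hu hv huv h1 h2
        pu pv
    · exact squad_ok hI hf (by unfold OpD.pc; omega) (by unfold OpD.pc; omega) hu hv huv h1 h2
        pu pv
    · exact squad_ok hI hf (by unfold OpD.pd; omega) (by unfold OpD.pd; omega) hu hv huv h1 h2
        pu pv
    · refine diag4 (P := fun v => Fc.mem f v = true) hu hv huv h1 h2 ?_ ?_ pu pv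
      · intro h3 h4
        have h5 := ((Fc.mem_u _ _ _ _).1 h4).2
        rcases gq0 hI hf hd h3 (pm_of_u h4) with hfe | hfe | hfe | hfe | hfe | hfe
        all_goals first
          | exact Or.inl hfe
          | exact Or.inr hfe
          | (exfalso
             rw [hfe] at h5
             simp only [Fc.G] at h5
             omega)
      · intro h3 h4
        have h5 := ((Fc.mem_u _ _ _ _).1 h3).2
        rcases gp0 hI hf hd h4 (pm_of_u h3) with hfe | hfe | hfe | hfe | hfe
        all_goals first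
          | exact Or.inl hfe
          | exact Or.inr hfe
          | (exfalso
             rw [hfe] at h5
             simp only [Fc.G] at h5
             omega)
    · refine diag4 (P := fun v => Fc.mem f v = true) hu hv huv h1 h2 ?_ ?_ pu pv
      · intro h3 h4
        have h5 := ((Fc.mem_u _ _ _ _).1 h4).2
        rcases gp0 hI hf hd h3 (pm_of_u h4) with hfe | hfe | hfe | hfe | hfe
        all_goals first
          | exact Or.inl hfe
          | exact Or.inr hfe
          | (exfalso
             rw [hfe] at h5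
             simp only [Fc.G] at h5
             omega)
      · intro h3 h4
        have h5 := ((Fc.mem_u _ _ _ _).1 h3).2
        rcases gq0 hI hf hd h4 (pm_of_u h3) with hfe | hfe | hfe | hfe | hfe | hfe
        all_goals first
          | exact Or.inl hfe
          | exact Or.inr hfe
          | (exfalso
             rw [hfe] at h5
             simp only [Fc.G] at h5
             omega)
    · refine diag4 (P := fun v => Fc.mem f v = true) hu hv huv h1 h2 ?_ ?_ pu pv
      · intro h3 h4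
        have h5 := ((Fc.mem_u _ _ _ _).1 h4).2
        rcases gq1 hI hf hd h3 (pm_of_u h4) with hfe | hfe | hfe | hfe | hfe | hfe
        all_goals first
          | exact Or.inl hfe
          | exact Or.inr hfe
          | (exfalso
             rw [hfe] at h5
             simp only [Fc.G] at h5
             omega)
      · intro h3 h4
        have h5 := ((Fc.mem_u _ _ _ _).1 h3).2
        rcases gp1 hI hf hd h4 (pm_of_u h3) with hfe | hfe | hfe | hfe | hfe
        all_goals first
          | exact Or.inl hfe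
          | exact Or.inr hfe
          | (exfalso
             rw [hfe] at h5
             simp only [Fc.G] at h5
             omega)
    · refine diag4 (P := fun v => Fc.mem f v = true) hu hv huv h1 h2 ?_ ?_ pu pv
      · intro h3 h4
        have h5 := ((Fc.mem_u _ _ _ _).1 h4).2
        rcases gp1 hI hf hd h3 (pm_of_u h4) with hfe | hfe | hfe | hfe | hfe
        all_goals first
          | exact Or.inl hfe
          | exact Or.inr hfe
          | (exfalso
             rw [hfe] at h5
             simp only [Fc.G] at h5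
             omega)
      · intro h3 h4
        have h5 := ((Fc.mem_u _ _ _ _).1 h3).2
        rcases gq1 hI hf hd h4 (pm_of_u h3) with hfe | hfe | hfe | hfe | hfe | hfe
        all_goals first
          | exact Or.inl hfe
          | exact Or.inr hfe
          | (exfalso
             rw [hfe] at h5
             simp only [Fc.G] at h5
             omega)
    · refine diag4 (P := fun v => Fc.mem f v = true) hu hv huv h1 h2 ?_ ?_ pu pv
      · intro h3 h4
        have h5 := ((Fc.mem_u _ _ _ _).1 h4).2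
        rcases gp1 hI hf hd h3 (pm_of_u h4) with hfe | hfe | hfe | hfe | hfe
        all_goals first
          | exact Or.inl hfe
          | exact Or.inr hfe
          | (exfalso
             rw [hfe] at h5
             simp only [Fc.G] at h5
             omega)
      · intro h3 h4
        have h5 := ((Fc.mem_u _ _ _ _).1 h3).2
        rcases gq1 hI hf hd h4 (pm_of_u h3) with hfe | hfe | hfe | hfe | hfe | hfe
        all_goals first
          | exact Or.inl hfe
          | exact Or.inr hfe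
          | (exfalso
             rw [hfe] at h5
             simp only [Fc.G] at h5
             omega)
    · refine diag4 (P := fun v => Fc.mem f v = true) hu hv huv h1 h2 ?_ ?_ pu pv
      · intro h3 h4
        have h5 := ((Fc.mem_u _ _ _ _).1 h4).2
        rcases gp2 hI hf hd h3 (pm_of_u h4) with hfe | hfe | hfe | hfe
        all_goals first
          | exact Or.inl hfe
          | exact Or.inr hfe
          | (exfalso
             rw [hfe] at h5
             simp only [Fc.G] at h5
             omega)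
      · intro h3 h4
        have h5 := ((Fc.mem_u _ _ _ _).1 h3).2
        rcases gq2 hI hf hd h4 (pm_of_u h3) with hfe | hfe | hfe | hfe | hfe
        all_goals first
          | exact Or.inl hfe
          | exact Or.inr hfe
          | (exfalso
             rw [hfe] at h5
             simp only [Fc.G] at h5
             omega)
    · refine diag4 (P := fun v => Fc.mem f v = true) hu hv huv h1 h2 ?_ ?_ pu pv
      · intro h3 h4
        have h5 := ((Fc.mem_u _ _ _ _).1 h4).2
        rcases gq2 hI hf hd h3 (pm_of_u h4) with hfe | hfe | hfe | hfe | hfe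
        all_goals first
          | exact Or.inl hfe
          | exact Or.inr hfe
          | (exfalso
             rw [hfe] at h5
             simp only [Fc.G] at h5
             omega)
      · intro h3 h4
        have h5 := ((Fc.mem_u _ _ _ _).1 h3).2
        rcases gp2 hI hf hd h4 (pm_of_u h3) with hfe | hfe | hfe | hfe
        all_goals first
          | exact Or.inl hfe
          | exact Or.inr hfe
          | (exfalso
             rw [hfe] at h5
             simp only [Fc.G] at h5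
             omega)

end Pool.Agent.Helper94.G4
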