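import Pool.Agent.Helper22.G4.Poly
import Pool.Agent.Helper22.G4.St.M3
import Pool.Agent.Helper22.G4.St.T9
import Pool.Agent.Helper22.G4.St.T10
import Pool.Agent.Helper89.Comp

set_option autoImplicit false

/-! # GRAPH4, piece M4: the formula for membership is computable in polynomial time -/

namespace Pool.Agent.Helper94.G4

open Pool.Agent.Helper22.G4 Pool.Agent.Helper89 Pool.Agent.Helper91.PolyTime

/-- Moving a part of the function to the encoding of the output. -/
theorem tm2_shift {α β γ Γ₀ Γ₁ : Type} {ea : α → List Γ₀} {eb : β → List Γ₁} {ec : γ → List Γ₁}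
    {f : α → β} {g : α → γ} (h : ∀ a, eb (f a) = ec (g a))
    (H : Nonempty (Turing.TM2ComputableInPolyTime ea eb f)) :
    Nonempty (Turing.TM2ComputableInPolyTime ea ec g) := by
  obtain ⟨⟨aux, time, out⟩⟩ := H
  refine ⟨⟨aux, time, fun a => ?_⟩⟩
  rw [← h a]
  exact out a

theorem tm2_memF : Nonempty (Turing.TM2ComputableInPolyTime EdgeList.enc QFormula.enc
    (fun G : EdgeList => memF G.n (natEdges G))) := by
  have h1 : PT (fun G : EdgeList => G.enc)
      (fun G => PEnc.enc ((memF G.n (natEdges G)).enc : List Tok)) :=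
    PT.trans pt_parse (PT.reindex ptf_memF fun G : EdgeList => (G.n, natEdges G))
  have h2 : Nonempty (Turing.TM2ComputableInPolyTime EdgeList.enc
      (fun l : List Tok => PEnc.enc l) (fun G : EdgeList => (memF G.n (natEdges G)).enc)) := by
    refine PT.tm2 EdgeList.enc (fun l : List Tok => PEnc.enc l) (fun b => [b]) _ ?_
    have he : (fun G : EdgeList => (EdgeList.enc G).flatMap fun b => [b]) =
        fun G : EdgeList => G.enc := by
      funext G
      exact List.flatMap_singleton' _
    rw [he]
    exact h1
  obtain ⟨h3⟩ := h2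
  obtain ⟨h4⟩ := tm2_decode
  have h5 := TM2Poly.comp h3 h4
  refine tm2_shift (β := List Tok) (eb := fun l : List Tok => l)
    (f := fun G : EdgeList => (memF G.n (natEdges G)).enc) (fun G => rfl) ?_
  exact h5

end Pool.Agent.Helper94.G4
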